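import Pool.Agent.Work.MP_49f0e1_gt.Main

/-!
# The doubled family of parallels of the sphere contracts, the family of parallels does not

On the round unit sphere `S²`, let the curve with parameter `s ∈ S²` be the parallel circle through
`s`, traversed once starting at `s`. The doubled curve of `s` is `t ↦ g(t) g(t) s`, where `g(t)` is
the rotation by `2 π t` about the third axis, and `g(t) C g(t) C⁻¹ s`, with `C` running over the
rotations about the second axis by angles from `0` to `π`, deforms it to the constant curve at `s`,
with speed at most `4 π` all along. The family of parallels itself does not deform to a family of
constant curves through any closed curves: lifting such a deformation to the unit quaternions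
produces a homotopy of maps from a three dimensional space to `S³` between a map of odd degree and
a map that factors through an interval.
-/

noncomputable section

open Pool.Agent.Work.MP_49f0e1_gt

namespace Pool.Agent.Results.MP_49f0e1_gt.Parallels

/-- For every `m` and every `L > 4 π`: the family of parallels of the round sphere `S²`, with the
parameter space `S² × [0,1]^m`, is a continuous family of closed curves of length less than `L`;
its doubled family deforms to a family of points through curves of length less than `L`; and the
family itself does not deform to a family of points through closed curves of length less than `L'`,
whatever `L'` is. -/
theorem result (m : ℕ) (L : ℝ) (hL : 4 * Real.pi < L) :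
    IsFamily (parallels m) ∧
    (∀ p, len (parallels m p) < L) ∧
    StronglyDeformsToPoints (fun p => multiple 2 (parallels m p)) L ∧
    DeformsToPoints (fun p => multiple 2 (parallels m p)) L ∧
    ∀ L' : ℝ, ¬ DeformsToPoints (parallels m) L' :=
  main m hL

end Pool.Agent.Results.MP_49f0e1_gt.Parallels
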